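import Mathlib
import Pool.Agent.TH167.RD.ConvO
import Pool.Agent.TH167.TT.NonSp

set_option autoImplicit false

/-!
# At most nine multiplicities larger than two: the whole range `d ≥ m₁ + m₂ + m₃`

Let `m 1, …, m s` be multiplicities at `s ≥ 4` general points of the complex projective plane and
`d ≥ m i + m j + m k` for any three of them (that is, for the three largest ones).

1. If at most nine of the multiplicities are larger than `2`, then the linear system of the curves
   of degree `d` is non-special, in EVERY such degree `d` (for points in one open set). The number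
   `s` of the points is arbitrary; for `s ≤ 9` this is the theorem of Nagata and Harbourne.
2. For arbitrary multiplicities let `S` be any set of at most nine points. If the system is not
   empty, then `dim L ≤ vdim L + ∑ (m i - 2)⁺`, the sum over the points outside `S`, or else at
   least ten of the multiplicities are at least `8`, and there is an irreducible curve `C` with
   `C ^ 2 < 0` and `L C < C ^ 2`, which is not a `(-1)`-curve and whose double is a fixed part of the
   system.
-/

namespace Pool.Agent.Results.MP_d3128a_ag.AtMostNineAboveTwo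

open MvPolynomial Pool.Agent.TH167 Pool.Agent.TH167.SHDefs

/-- `d ≥ m₁ + m₂ + m₃` for the three largest multiplicities. -/
def Standard {s : ℕ} (d : ℕ) (m : Fin s → ℕ) : Prop :=
  ∀ i j k : Fin s, i ≠ j → i ≠ k → j ≠ k → m i + m j + m k ≤ d

theorem nonspecial_of {n : ℕ} {P : Fin n → Fin 2 → ℂ} {d : ℕ} {w : Fin n → ℕ}
    (h1 : Module.finrank ℂ ↥(sys P d w) =
      Nat.choose (d + 2) 2 - ∑ i, Nat.choose (w i + 1) 2) : ¬ Special P d w := by
  have h2 : ∑ i, ((w i + 1).choose 2 : ℤ) = ((∑ i, Nat.choose (w i + 1) 2 : ℕ) : ℤ) := by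
    push_cast
    rfl
  unfold Special dimL virtdim
  rw [h1, h2]
  push Not
  omega

theorem result (s : ℕ) (hs : 4 ≤ s) (m : Fin s → ℕ) :
    ((Finset.univ.filter fun i => 2 < m i).card ≤ 9 →
      ∃ Q : MvPolynomial (Fin s × Fin 2) ℂ, Q ≠ 0 ∧ ∀ P : Fin s → Fin 2 → ℂ,
        eval (fun ij : Fin s × Fin 2 => P ij.1 ij.2) Q ≠ 0 →
          ∀ d, Standard d m → ¬ Special P d m) ∧
    ∀ d, Standard d m →
      ∃ Q : MvPolynomial (Fin s × Fin 2) ℂ, Q ≠ 0 ∧ ∀ P : Fin s → Fin 2 → ℂ,
        eval (fun ij : Fin s × Fin 2 => P ij.1 ij.2) Q ≠ 0 → 0 ≤ dimL P d m →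
          ∀ S : Finset (Fin s), S.card ≤ 9 →
            dimL P d m ≤ virtdim d m + ((∑ i, (if i ∈ S then 0 else m i - 2) : ℕ) : ℤ) ∨
            (10 ≤ (Finset.univ.filter fun i => 8 ≤ m i).card ∧
              ∃ (G : MvPolynomial (Fin 3) ℂ) (e : ℕ) (u : Fin s → ℕ),
                Curve P G e u ∧ ¬ MinusOne P G e u ∧ inter e u e u < 0 ∧
                inter d m e u < inter e u e u ∧ ∀ f ∈ sys P d m, G ^ 2 ∣ f) := by
  classical
  obtain ⟨r, rfl⟩ : ∃ r, s = r + 4 := ⟨s - 4, by omega⟩
  refine ⟨fun h9 => ?_, fun d hd => ?_⟩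
  · obtain ⟨F, hF, h⟩ := TT.nonsp_all (v := m) h9
    refine ⟨F.map (algebraMap ℚ ℂ), SH.map_ne hF, fun P hP d hd => ?_⟩
    rw [SH.evP_eval] at hP
    have h1 := h ℂ P hP d hd
    exact nonspecial_of (by rw [SH.sys_eq]; exact h1)
  · obtain ⟨Q, hQ, h⟩ := RD.final_open r d m
    refine ⟨Q, hQ, fun P hP h0 S hS => ?_⟩
    obtain ⟨h1, -⟩ := h P hP h0
    rcases le_or_gt (dimL P d m)
      (virtdim d m + ((∑ i, (if i ∈ S then 0 else m i - 2) : ℕ) : ℤ)) with h2 | h2
    · exact Or.inl h2
    · right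
      obtain ⟨G, e, u, c1, c2, c3, c4, c5⟩ := h1 S hS h2
      have hm1 : ¬ MinusOne P G e u := by
        intro hM
        have h3 : 0 ≤ inter d m e u := SH.red_nef (w := m) hd (SH.minusOne_iff.1 hM)
        omega
      exact ⟨c4.resolve_left hm1, G, e, u, c1, hm1, c2, c3, c5⟩

end Pool.Agent.Results.MP_d3128a_ag.AtMostNineAboveTwo
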