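import Mathlib
import Pool.Agent.Q310.FP.Fourth

set_option autoImplicit false

/-!
# Non-speciality for `d ≥ m₁ + m₂ + m₃`: the exceptions are bounded in terms of the fourth multiplicity

Let `v 0 ≥ v 1 ≥ ⋯` be any multiplicities and `d ≥ v 0 + v 1 + v 2`. For general points of the complex
projective plane the linear system of the forms of degree `d` with these multiplicities is
non-special, unless `Small4 d v` holds.

`Small4 d v`, for multiplicities `v 0 ≥ v 1 ≥ ⋯`, means: `v 3 > 0`; `v 2 < 2 (v 3) ^ 2 + 3 v 3 + 2`;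
`v 2 < 4 m ^ 2 + 8 m + 5` for every `m ≥ 1` such that at most the first five multiplicities are
larger than `m`; `(d + 1) (d + 2) < 2 ^ 17 (v 3 + 1) ^ 4 + ∑_{i < 3} v i (v i + 1)`;
`∑_{i ≥ 3} (v i + 1).choose 2 < 2 ^ 17 (v 3 + 1) ^ 4`; and
`d + 1 + v 0 v 1 + v 0 v 2 + v 1 v 2 < 2 ^ 16 (v 3 + 1) ^ 4`. `Rem4 d w`: the multiplicities `w`, in
decreasing order, satisfy `Small4`. So for every value of the fourth multiplicity only finitely many
classes satisfy `Rem4`, for all numbers of points together.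
-/

namespace Pool.Agent.Results.MP_d3128a_ag.FourthMultiplicity

open MvPolynomial Pool.Agent.TH167.SHDefs Pool.Agent.Q310.FP

theorem result (r d : ℕ) (v : Fin (r + 4) → ℕ) (hv : Antitone v) (hd : v 0 + v 1 + v 2 ≤ d) :
    (∃ F : MvPolynomial (Fin (r + 4) × Fin 2) ℂ, F ≠ 0 ∧ ∀ P : Fin (r + 4) → Fin 2 → ℂ,
      MvPolynomial.eval (fun ij : Fin (r + 4) × Fin 2 => P ij.1 ij.2) F ≠ 0 →
        dimL P d v = max (virtdim d v) (-1)) ∨
    Small4 d v :=
  (sorted_or d v hv hd).imp (fun h => h.general) id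

end Pool.Agent.Results.MP_d3128a_ag.FourthMultiplicity
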