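import Mathlib
import Pool.Agent.Q78.SG.MixF

set_option autoImplicit false

/-!
# Exact families on the boundary `d = m₁ + m₂ + m₃` with independent blocks

Let `k + r M = 9`, `M, r ≥ 1`. Consider general points of the complex projective plane, `k` of them of
multiplicity `D`, the others in `r` blocks of `M + 4` points; in each block the multiplicities are
two consecutive numbers `m, m + 1` (or one number), where `m` depends on the block. Let `c j` be the
number of conditions `∑ (w i + 1).choose 2` in the block `j`.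

* If `c j ≤ M (D + 1).choose 2` for all blocks, then the multiplicities `w`, and all smaller ones,
  impose independent conditions in every degree `d ≥ 3 D`.
* If `c j > M (D + 1).choose 2` for all blocks, then the systems of degree `d ≤ 3 D` with the
  multiplicities `w`, and with all larger ones, are empty.

The systems are non-special. For `k ≥ 3` and `w i ≤ D` the degree `3 D` is the boundary case
`d = m₁ + m₂ + m₃`. For example `M = 1`: any `9 - k` groups of five points, each with
`∑ (w i + 1).choose 2 ≤ (D + 1).choose 2`, next to `k` points of multiplicity `D`.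
-/

namespace Pool.Agent.Results.MP_d3128a_ag.MixedBlocks

open MvPolynomial Pool.Agent.H248R5

theorem result (n M r k D : ℕ) (hM : 1 ≤ M) (hr : 1 ≤ r) (hk : k + r * M = 9) (w : Fin n → ℕ)
    (g : Fin n → Option (Fin r)) (h0 : (Finset.univ.filter fun i => g i = none).card = k)
    (hD : ∀ i, g i = none → w i = D)
    (h1 : ∀ j, (Finset.univ.filter fun i => g i = some j).card = M + 4)
    (h2 : ∀ j, ∃ m : ℕ, ∀ i, g i = some j → w i = m ∨ w i = m + 1) :
    ∃ F : MvPolynomial (Fin n × Fin 2) ℂ, F ≠ 0 ∧ ∀ P : Fin n → Fin 2 → ℂ,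
      eval (fun ij : Fin n × Fin 2 => P ij.1 ij.2) F ≠ 0 →
      ((∀ j, ∑ i ∈ Finset.univ.filter (fun i => g i = some j), (w i + 1).choose 2 ≤
        M * (D + 1).choose 2) → ∀ d, 3 * D ≤ d → ∀ u : Fin n → ℕ, (∀ i, u i ≤ w i) →
          Module.finrank ℂ ↥(forms u P d) + ∑ i, (u i + 1).choose 2 = (d + 2).choose 2) ∧
      ((∀ j, M * (D + 1).choose 2 < ∑ i ∈ Finset.univ.filter (fun i => g i = some j),
        (w i + 1).choose 2) → ∀ d ≤ 3 * D, ∀ v : Fin n → ℕ, (∀ i, w i ≤ v i) →
          forms v P d = ⊥ ∧ (d + 2).choose 2 ≤ ∑ i, (v i + 1).choose 2) := by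
  obtain ⟨F, hF, h⟩ := Pool.Agent.Q78.SG.Mix.Blocks.systems (K := ℂ) (M := M) (k := k) (D := D)
    (w := w) (g := g) ⟨hM, hr, hk, h0, hD, h1, h2⟩
  refine ⟨F.map (algebraMap ℚ ℂ), Pool.Agent.TH167.SH.map_ne hF, fun P hP => ?_⟩
  rw [Pool.Agent.TH167.SH.evP_eval] at hP
  obtain ⟨h3, h4⟩ := h P hP
  exact ⟨fun hc d hd u hu => (h4 hc d hd u hu).1, h3⟩

end Pool.Agent.Results.MP_d3128a_ag.MixedBlocks
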